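import Pool.Agent.P.MP_26ad15_nt.ASOut

/-! Ax-Schanuel theorem with derivatives for the Gamma function. -/

namespace Pool.Agent.Results.MP_26ad15_nt.AxSchanuel

/-- Let `f_1, ..., f_n` be non-constant holomorphic functions on a domain `U` of `ℂ^d`, avoiding the
poles of `Γ`, no one of the form `a f_j + b` (`j ≠ i`, `a, b` rational). For every finite set `S` of
pairs `(i, l)`, the algebra generated over `ℂ` by the `f_i` and the `Γ^(l)(f_i)`, `(i, l) ∈ S`, has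
transcendence degree at least `|S|` plus the rank of the Jacobian matrix of `f` at any point. -/
theorem result (d n : ℕ) (U : Set (Fin d → ℂ)) (hUo : IsOpen U) (hUc : IsConnected U)
    (f : Fin n → (Fin d → ℂ) → ℂ) (hf : ∀ i, AnalyticOnNhd ℂ (f i) U)
    (hp : ∀ i, ∀ x ∈ U, ∀ m : ℕ, f i x ≠ -(m : ℂ)) (hnc : ∀ i (c : ℂ), ¬ ∀ x ∈ U, f i x = c)
    (hH : ∀ i j, i ≠ j → ∀ a b : ℚ, ¬ ∀ x ∈ U, f i x = (a : ℂ) * f j x + (b : ℂ))
    (S : Finset (Fin n × ℕ)) (x₀ : Fin d → ℂ) (h0 : x₀ ∈ U) :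
    ((S.card + (Matrix.of fun (k : Fin d) (i : Fin n) =>
      fderiv ℂ (f i) x₀ (Pi.single k 1)).rank : ℕ) : Cardinal) ≤
    Algebra.trdeg ℂ (Algebra.adjoin ℂ ((Set.range fun (i : Fin n) (x : U) => f i x) ∪
      (fun (q : Fin n × ℕ) (x : U) => iteratedDeriv q.2 Complex.Gamma (f q.1 x)) '' S)) :=
  Pool.Agent.P.MP_26ad15_nt.ax_schanuel hUo hUc hf hp hnc hH S h0

end Pool.Agent.Results.MP_26ad15_nt.AxSchanuel
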