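import Pool.Agent.P.MP_26ad15_nt.ASOut

/-! The Schanuel-type conjecture for the Gamma function outside a countable set. -/

namespace Pool.Agent.Results.MP_26ad15_nt.CountableExceptions

/-- There is a countable set `K` of complex numbers such that for every tuple `z` satisfying (H) with
some coordinate outside `K`, each coordinate outside `K` raises the transcendence degree of the field
generated by the `z_i` and the `Γ^(l)(z_i)`, `l ≤ m`, by `m + 1`, with one more to spare. -/
theorem result : ∃ K : Set ℂ, K.Countable ∧ ∀ (n m : ℕ) (z : Fin n → ℂ),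
    (∀ i j, i ≠ j → ∀ a b : ℚ, z i ≠ (a : ℂ) * z j + (b : ℂ)) → (∃ i, z i ∉ K) →
    Algebra.trdeg ℚ (IntermediateField.adjoin ℚ {w : ℂ | ∃ i, z i ∈ K ∧
        (w = z i ∨ ∃ l ≤ m, w = iteratedDeriv l Complex.Gamma (z i))}) +
      (((m + 1) * {i | z i ∉ K}.ncard + 1 : ℕ) : Cardinal) ≤
    Algebra.trdeg ℚ (IntermediateField.adjoin ℚ {w : ℂ | ∃ i,
        w = z i ∨ ∃ l ≤ m, w = iteratedDeriv l Complex.Gamma (z i)}) :=
  Pool.Agent.P.MP_26ad15_nt.countable_exc

end Pool.Agent.Results.MP_26ad15_nt.CountableExceptions
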