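import Pool.Agent.P.MP_26ad15_nt.Q.C

namespace Pool.Agent.Results.MP_26ad15_nt.QuadraticDegree

open Polynomial Real Pool.Agent.P.MP_26ad15_nt.Q
open scoped IntermediateField

theorem gamma_shift (p : ℤ) : ∃ f g : ℤ[X], ∀ x : ℝ, Irrational x →
    aeval x g ≠ 0 ∧ Gamma (p - x) * aeval x f = Gamma (1 - x) * aeval x g := by
  have hne : ∀ (k : ℤ) (x : ℝ), Irrational x → (k : ℝ) - x ≠ 0 := fun k x hx =>
    sub_ne_zero.2 (hx.ne_int k).symm
  have key : ∀ k : ℤ, ∃ f g : ℤ[X], ∀ x : ℝ, Irrational x → aeval x f ≠ 0 ∧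
      aeval x g ≠ 0 ∧ Gamma (k + 1 - x) * aeval x f = Gamma (1 - x) * aeval x g := by
    intro k
    induction k using Int.induction_on with
    | zero => exact ⟨1, 1, fun x _ => by simp⟩
    | succ k ih =>
      obtain ⟨f, g, h⟩ := ih
      refine ⟨f, (C ((k : ℤ) + 1) - X) * g, fun x hx => ?_⟩
      obtain ⟨h1, h2, h3⟩ := h x hx
      have h4 := hne (k + 1) x hx
      have h5 : aeval x ((C ((k : ℤ) + 1) - X) * g) = (((k : ℤ) + 1 : ℤ) - x) * aeval x g := by
        simp
      refine ⟨h1, h5 ▸ mul_ne_zero h4 h2, ?_⟩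
      rw [h5, add_sub_right_comm, Gamma_add_one h4]
      push_cast at h3 ⊢
      linear_combination (k + 1 - x) * h3
    | pred k ih =>
      obtain ⟨f, g, h⟩ := ih
      refine ⟨(C (-(k : ℤ)) - X) * f, g, fun x hx => ?_⟩
      obtain ⟨h1, h2, h3⟩ := h x hx
      have h4 := hne (-k) x hx
      have h5 : aeval x ((C (-(k : ℤ)) - X) * f) = ((-(k : ℤ) : ℤ) - x) * aeval x f := by
        simp
      refine ⟨h5 ▸ mul_ne_zero h4 h1, h2, ?_⟩
      rw [add_sub_right_comm, Gamma_add_one h4] at h3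
      rw [h5, ← h3]
      push_cast
      rw [sub_add_cancel]
      ring
  obtain ⟨f, g, h⟩ := key (p - 1)
  refine ⟨f, g, fun x hx => ⟨(h x hx).2.1, ?_⟩⟩
  have := (h x hx).2.2
  push_cast at this
  rwa [sub_add_cancel] at this

theorem result (β : ℝ) (hβ : Irrational β) (p q : ℤ) (c : ℕ) (hc : 0 < c)
    (h : c * (β * (p - β)) = q) (ha : IsAlgebraic ℚ (Real.Gamma β * Real.Gamma (p - β))) :
    20 < c * (minpoly ℚ (Real.Gamma β * Real.Gamma (p - β))).natDegree ^ 2 := by
  by_contra hm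
  obtain ⟨f, g, hfg⟩ := gamma_shift p
  set a : ℝ := Gamma β * Gamma (p - β) with haa
  have hc' : (c : ℂ) ≠ 0 := by exact_mod_cast hc.ne'
  have hC : (c : ℂ) * (β * (p - β)) = q := by exact_mod_cast h
  have hai : IsIntegral ℚ (a : ℂ) := ha.isIntegral.map (IsScalarTower.toAlgHom ℚ ℝ ℂ)
  have hmin : minpoly ℚ (a : ℂ) = minpoly ℚ a := minpoly.algebraMap_eq Complex.ofReal_injective a
  have hβi : IsIntegral ℚ (β : ℂ) := by
    refine ⟨X ^ 2 - C (p : ℚ) * X + C (q / c : ℚ), by monicity!, ?_⟩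
    rw [eval₂_add, eval₂_sub, eval₂_mul, eval₂_pow, eval₂_X, eval₂_C, eval₂_C]
    simp only [eq_ratCast]
    push_cast
    field_simp
    linear_combination -hC
  let F := ℚ⟮(a : ℂ)⟯
  let E := F⟮(β : ℂ)⟯
  have : FiniteDimensional ℚ F := IntermediateField.adjoin.finiteDimensional hai
  have : FiniteDimensional F E := IntermediateField.adjoin.finiteDimensional hβi.tower_top
  have : FiniteDimensional ℚ E := Module.Finite.trans F E
  have : NumberField E := ⟨⟩
  let b : E := IntermediateField.AdjoinSimple.gen F (β : ℂ)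
  let a' : E := algebraMap F E (IntermediateField.AdjoinSimple.gen ℚ (a : ℂ))
  have hb : (c : E) * b * (p - b) = q := by
    apply (algebraMap E ℂ).injective
    simp only [map_mul, map_sub, map_natCast, map_intCast]
    rw [mul_assoc]
    exact hC
  classical
  have hcard : (Finset.univ.image fun σ : E →ₐ[F] ℂ => σ.restrictScalars ℚ).card =
      Module.finrank F E := by
    rw [Finset.card_image_of_injective _ (AlgHom.restrictScalars_injective ℚ), Finset.card_univ,
      AlgHom.card]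
  refine core b (a' * aeval b f / (2 * aeval b g)) hc p q hb
    (Finset.univ.image fun σ : E →ₐ[F] ℂ => σ.restrictScalars ℚ)
    ⟨_, Finset.mem_image_of_mem _ (Finset.mem_univ E.val)⟩ (fun σ hσ => ?_) ?_
  · obtain ⟨τ, -, rfl⟩ := Finset.mem_image.1 hσ
    have h1 : (c : ℂ) * τ b * (p - τ b) = q := by simpa using congrArg τ hb
    have h2 : (τ b - β) * (τ b - (p - β : ℝ)) = 0 := by
      refine mul_left_cancel₀ hc' ?_
      push_cast
      linear_combination hC - h1
    obtain ⟨x, hx, hx1, hx2⟩ : ∃ x : ℝ, Irrational x ∧ τ b = x ∧ a = Gamma x * Gamma (p - x) := by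
      rcases mul_eq_zero.1 h2 with h3 | h3
      · exact ⟨β, hβ, sub_eq_zero.1 h3, rfl⟩
      · exact ⟨p - β, hβ.intCast_sub p, sub_eq_zero.1 h3, by rw [sub_sub_cancel, mul_comm]⟩
    refine ⟨x, hx, hx1, ?_⟩
    have h3 : τ a' = a := τ.commutes _
    have h4 : ∀ k : ℤ[X], τ (aeval b k) = ((aeval x k : ℝ) : ℂ) := fun k => by
      induction k using Polynomial.induction_on' with
      | add k l hk hl => simp only [map_add, hk, hl, Complex.ofReal_add]
      | monomial n z => simp [aeval_monomial, hx1]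
    obtain ⟨h5, h6⟩ := hfg x hx
    have h7 : sin (π * x) ≠ 0 := fun h0 => by
      obtain ⟨n, hn⟩ := sin_eq_zero_iff.1 h0
      exact hx.ne_int n (mul_left_cancel₀ pi_ne_zero (by rw [← hn, mul_comm]))
    have h8 : 2 * (a * aeval x f / (2 * aeval x g)) * sin (π * x) = π := by
      have h9 := Gamma_mul_Gamma_one_sub x
      rw [eq_div_iff h7] at h9
      rw [hx2, mul_assoc (Gamma x), h6]
      generalize sin (π * x) = s at h9 ⊢
      field_simp
      linear_combination h9
    simp only [AlgHom.restrictScalars_apply, map_div₀, map_mul, map_ofNat, h3, h4]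
    exact_mod_cast h8
  · rw [hcard, ← Module.finrank_mul_finrank ℚ F E, IntermediateField.adjoin.finrank hai, hmin,
      mul_pow, ← mul_assoc]
    exact Nat.mul_le_mul_right _ (not_lt.1 hm)

end Pool.Agent.Results.MP_26ad15_nt.QuadraticDegree
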