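import Pool.Agent.P.MP_26ad15_nt.SVMain

/-! Few classes modulo the integers of algebraic points at which `θ Γ` takes an algebraic value. -/

namespace Pool.Agent.Results.MP_26ad15_nt.SparseValues

open Polynomial

theorem result (θ : ℂ) (hθ : θ ≠ 0) (D : ℕ) (hD : 1 ≤ D) (h N : ℝ)
    (hh : 10 ^ 6 * (D : ℝ) ^ 2 ≤ h) (hN : h ≤ N) (hN' : 2 * Real.log N ≤ h) (S : Finset ℂ)
    (hcoset : ∀ z ∈ S, ∀ w ∈ S, z ≠ w → ∀ m : ℤ, z - w ≠ m)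
    (hpole : ∀ z ∈ S, ∀ k : ℕ, z ≠ -k)
    (hsize : ∀ z ∈ S, ‖z‖ ≤ N)
    (hdeg : ∀ z ∈ S,
      Module.finrank ℚ (IntermediateField.adjoin ℚ {z, θ * Complex.Gamma z}) ≤ D)
    (harg : ∀ z ∈ S, ∃ P : ℤ[X], P ≠ 0 ∧ aeval z P = 0 ∧ ∀ i, |(P.coeff i : ℝ)| ≤ Real.exp h)
    (hval : ∀ z ∈ S, ∃ Q : ℤ[X], Q ≠ 0 ∧ aeval (θ * Complex.Gamma z) Q = 0 ∧
      ∀ i, |(Q.coeff i : ℝ)| ≤ Real.exp (N * h)) :
    (S.card : ℝ) ≤ 10 ^ 10 * (D : ℝ) ^ 4 * (h / Real.log (h / Real.log N)) ^ 2 :=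
  Pool.Agent.P.MP_26ad15_nt.SV.main θ hθ D h N S hD hh hN hN' hcoset fun z hz =>
    ⟨hpole z hz, hsize z hz, hdeg z hz, harg z hz, hval z hz⟩

end Pool.Agent.Results.MP_26ad15_nt.SparseValues
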